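import Mathlib

set_option autoImplicit false

namespace Pool.Agent.Results.MP_2d7e0f_pr.Attained

open Finset Filter Topology MeasureTheory unitInterval BoundedContinuousFunction Function

variable {n : ℕ}

/-- The `C`-volume of the box `[u, v]`; `T` is the set of coordinates taken from `v`. -/
noncomputable def boxVol (C : (Fin n → I) → ℝ) (u v : Fin n → I) : ℝ :=
  ∑ T ∈ (univ : Finset (Fin n)).powerset, (-1) ^ (n - T.card) * C (T.piecewise v u)

/-- `C` is an `n`-copula. -/
def IsCopula (C : (Fin n → I) → ℝ) : Prop :=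
  (∀ x, 0 ≤ C x ∧ C x ≤ 1) ∧ (∀ x k, x k = 0 → C x = 0) ∧
  (∀ x k, (∀ j ≠ k, x j = 1) → C x = x k) ∧ ∀ u v, u ≤ v → 0 ≤ boxVol C u v

/-- The lower Frechet bound. -/
noncomputable def W (x : Fin n → I) : ℝ := max (∑ k, (x k : ℝ) - n + 1) 0

/-- The supremum `s n`. -/
noncomputable def s (n : ℕ) : ENNReal :=
  sSup {m | ∃ A : Set (Fin n → I), MeasurableSet A ∧ (∃ C, IsCopula C ∧ ∀ x ∈ A, C x = W x) ∧
    m = volume A}

theorem two_inc {C : (Fin n → I) → ℝ} (h : IsCopula C) (v : Fin n → I) {k j : Fin n} (hkj : k ≠ j)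
    {a b : I} (ha : a ≤ v k) (hb : b ≤ v j) :
    C (update v j b) - C (update (update v j b) k a) ≤ C v - C (update v k a) := by
  obtain ⟨u, hu⟩ : ∃ u : Fin n → I, u = update (update (fun _ => 0) k a) j b := ⟨_, rfl⟩
  obtain ⟨R, hR⟩ : ∃ R : Finset (Fin n), R = (univ.erase k).erase j := ⟨_, rfl⟩
  have uk : u k = a := by simp [hu, hkj]
  have uj : u j = b := by simp [hu]
  have mR : ∀ i, i ∈ R ↔ i ≠ j ∧ i ≠ k := fun i => by simp [hR]
  have u0 : ∀ i ∈ R, u i = 0 := fun i hi => by simp [hu, (mR i).mp hi]
  have e : (univ : Finset (Fin n)) = insert k (insert j R) := by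
    ext i; simp only [mem_univ, mem_insert, mR]; tauto
  have jR : j ∉ R := by simp [mR]
  have kR : k ∉ insert j R := by simp [mR, hkj]
  have c : n = R.card + 2 := by
    have := congrArg card e
    rwa [card_insert_of_notMem kR, card_insert_of_notMem jR, card_univ, Fintype.card_fin] at this
  have h1 := h.2.2.2 u v fun i => by
    by_cases h1 : i = j
    · rw [h1, uj]; exact hb
    by_cases h2 : i = k
    · rw [h2, uk]; exact ha
    · rw [u0 i ((mR i).mpr ⟨h1, h2⟩)]; exact nonneg'
  have red : ∀ g : Finset (Fin n) → Finset (Fin n), (∀ T, ∀ i ∈ R, i ∈ g T → i ∈ T) →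
      ∑ T ∈ R.powerset, (-1 : ℝ) ^ (n - (g T).card) * C ((g T).piecewise v u) =
      (-1) ^ (n - (g R).card) * C ((g R).piecewise v u) := fun g hg => by
    refine sum_eq_single R (fun T hT hne => ?_) (by simp)
    obtain ⟨i, h1, h2⟩ := exists_of_ssubset (ssubset_of_subset_of_ne (mem_powerset.mp hT) hne)
    rw [h.2.1 _ i (by rw [piecewise_eq_of_notMem _ _ _ fun h => h2 (hg T i h1 h), u0 i h1]),
      mul_zero]
  rw [boxVol, e, sum_powerset_insert kR, sum_powerset_insert jR, sum_powerset_insert jR,
    red (fun T => T) (fun _ _ _ h => h), red (insert j) (by grind), red (insert k) (by grind),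
    red (fun T => insert k (insert j T)) (by grind), card_insert_of_notMem kR,
    card_insert_of_notMem jR, card_insert_of_notMem (show k ∉ R by grind),
    show n - R.card = 2 by omega, show n - (R.card + 1) = 1 by omega,
    show n - (R.card + 1 + 1) = 0 by omega, ← e, piecewise_univ,
    show R.piecewise v u = update (update v j b) k a by ext1 i; grind [piecewise],
    show (insert j R).piecewise v u = update v k a by ext1 i; grind [piecewise],
    show (insert k R).piecewise v u = update v j b by ext1 i; grind [piecewise]] at h1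
  linarith

theorem lip1 (hn : 2 ≤ n) {C : (Fin n → I) → ℝ} (h : IsCopula C) (x : Fin n → I) (k : Fin n)
    {a b : I} (hab : a ≤ b) : |C (update x k b) - C (update x k a)| ≤ b - a := by
  obtain ⟨j, hj⟩ : ∃ j, k ≠ j := by
    have : Nontrivial (Fin n) := Fin.nontrivial_iff_two_le.mpr hn
    exact (exists_ne k).imp fun _ h => h.symm
  have h1 := two_inc h (update x k b) hj (a := a) (b := 0) (by simpa) nonneg'
  rw [h.2.1 _ j (by simp), h.2.1 _ j (by simp [hj.symm]), update_idem] at h1
  have h2 : ∀ S : Finset (Fin n), C (update x k b) - C (update x k a) ≤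
      C (update (S.piecewise 1 x) k b) - C (update (S.piecewise 1 x) k a) := fun S => by
    induction S using Finset.induction with
    | empty => simp
    | insert i S hi ih =>
      refine ih.trans ?_
      rw [piecewise_insert]
      by_cases hik : k = i
      · subst hik; simp
      · have := two_inc h (update (update (S.piecewise 1 x) i 1) k b) hik (a := a)
          (b := S.piecewise 1 x i) (by simpa) (by simp [Ne.symm hik, le_one'])
        rw [update_idem, update_comm hik, update_idem, update_idem, update_eq_self] at this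
        exact this
  have h3 := h2 univ
  rw [h.2.2.1 (update (univ.piecewise 1 x) k b) k (by simp +contextual),
    h.2.2.1 (update (univ.piecewise 1 x) k a) k (by simp +contextual), update_self,
    update_self] at h3
  rw [abs_of_nonneg (by linarith)]
  exact h3

theorem lip (hn : 2 ≤ n) {C : (Fin n → I) → ℝ} (h : IsCopula C) : LipschitzWith n C := by
  refine LipschitzWith.of_dist_le_mul fun x y => ?_
  have h2 : ∀ S : Finset (Fin n), dist (C x) (C (S.piecewise y x)) ≤ S.card * dist x y :=
      fun S => by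
    induction S using Finset.induction with
    | empty => simp
    | insert i S hi ih =>
      have h3 : dist (C (update (S.piecewise y x) i (x i))) (C (update (S.piecewise y x) i (y i))) ≤
          dist (x i) (y i) := by
        rw [Real.dist_eq, Subtype.dist_eq, Real.dist_eq]
        rcases le_total (x i) (y i) with h4 | h4
        · rw [abs_sub_comm, abs_sub_comm (x i : ℝ)]
          exact (lip1 hn h _ i h4).trans (le_abs_self _)
        · exact (lip1 hn h _ i h4).trans (le_abs_self _)
      rw [← piecewise_insert, ← piecewise_eq_of_notMem S y x hi, update_eq_self,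
        piecewise_eq_of_notMem S y x hi] at h3
      have := dist_triangle (C x) (C (S.piecewise y x)) (C ((insert i S).piecewise y x))
      have := dist_le_pi_dist x y i
      rw [card_insert_of_notMem hi]
      push_cast
      linarith
  simpa using h2 univ

theorem prod_copula : IsCopula fun x : Fin n → I => ∏ k, (x k : ℝ) := by
  refine ⟨fun x => ⟨prod_nonneg fun k _ => (x k).2.1, prod_le_one (fun k _ => (x k).2.1)
    fun k _ => (x k).2.2⟩, fun x k h => prod_eq_zero (mem_univ k) (by simp [h]),
    fun x k h => prod_eq_single k (fun j _ hj => by simp [h j hj]) (by simp), fun u v h => ?_⟩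
  have h1 : 0 ≤ ∏ k, ((v k : ℝ) + -u k) := prod_nonneg fun k _ => by
    have : (u k : ℝ) ≤ v k := h k
    linarith
  rw [prod_add] at h1
  refine h1.trans (le_of_eq (sum_congr rfl fun T _ => ?_))
  beta_reduce
  rw [prod_neg, card_univ_sdiff, Fintype.card_fin, show (fun k => ((T.piecewise v u k : I) : ℝ)) =
    T.piecewise (fun k => (v k : ℝ)) (fun k => (u k : ℝ)) by ext1 k; grind [piecewise],
    prod_piecewise, univ_inter]
  ring

/-- The supremum `s n` is attained. -/
theorem result (n : ℕ) (hn : 3 ≤ n) :
    ∃ C : (Fin n → I) → ℝ, IsCopula C ∧ volume {x | C x = W x} = s n := by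
  have h2 : 2 ≤ n := by omega
  have cW : Continuous (W (n := n)) := by unfold W; fun_prop
  obtain ⟨m, -, m1, m2⟩ := exists_seq_tendsto_sSup (S := {m | ∃ A : Set (Fin n → I),
    MeasurableSet A ∧ (∃ C, IsCopula C ∧ ∀ x ∈ A, C x = W x) ∧ m = volume A})
    ⟨_, ∅, MeasurableSet.empty, ⟨_, prod_copula, by simp⟩, rfl⟩ (OrderTop.bddAbove _)
  choose A _ hC e using m2
  choose C c1 c2 using hC
  have K := arzela_ascoli (Set.Icc (0 : ℝ) 1) isCompact_Icc
    {f : (Fin n → I) →ᵇ ℝ | IsCopula f} (fun f x h => h.1 x)
    (LipschitzWith.uniformEquicontinuous _ n fun f => lip h2 f.2).equicontinuous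
  obtain ⟨f, -, φ, φ1, φ2⟩ := K.tendsto_subseq
    (x := fun k => mkOfCompact ⟨C k, (lip h2 (c1 k)).continuous⟩) fun k => subset_closure (c1 k)
  have pt : ∀ x, Tendsto (fun k => C (φ k) x) atTop (𝓝 (f x)) := fun x =>
    ((continuous_eval_const x).tendsto f).comp φ2
  have cf : IsCopula f := ⟨fun x => ⟨ge_of_tendsto' (pt x) fun k => ((c1 _).1 x).1,
      le_of_tendsto' (pt x) fun k => ((c1 _).1 x).2⟩,
    fun x k h => tendsto_nhds_unique (pt x) (by simp [(c1 _).2.1 x k h]),
    fun x k h => tendsto_nhds_unique (pt x) (by simp [(c1 _).2.2.1 x k h]),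
    fun u v h => ge_of_tendsto' (tendsto_finsetSum _ fun T _ => (pt _).const_mul _)
      fun k => (c1 _).2.2.2 u v h⟩
  refine ⟨f, cf, le_antisymm (le_sSup ⟨_, (isClosed_eq f.continuous cW).measurableSet,
    ⟨f, cf, fun _ h => h⟩, rfl⟩) ?_⟩
  have t := tendsto_measure_iInter_atTop (μ := (volume : Measure (Fin n → I)))
    (s := fun j : ℕ => {x | dist (f x) (W x) ≤ 1 / (j + 1)})
    (fun j => (isClosed_le (by fun_prop) continuous_const).measurableSet.nullMeasurableSet)
    (fun i j hij x hx => by
      simp only [Set.mem_ofPred_eq] at hx ⊢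
      exact hx.trans (Nat.one_div_le_one_div hij)) ⟨0, measure_ne_top _ _⟩
  rw [show ⋂ j : ℕ, {x | dist (f x) (W x) ≤ 1 / (j + 1)} = {x | f x = W x} by
    ext x
    simp only [Set.mem_iInter, Set.mem_ofPred_eq]
    exact ⟨fun h => dist_le_zero.mp (ge_of_tendsto' tendsto_one_div_add_atTop_nhds_zero_nat h),
      fun h j => by rw [h, dist_self]; positivity⟩] at t
  refine ge_of_tendsto' t fun j => le_of_tendsto (m1.comp φ1.tendsto_atTop) ?_
  filter_upwards [Metric.tendsto_nhds.mp φ2 (1 / (j + 1)) (by positivity)] with k hk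
  rw [comp_apply, e]
  refine measure_mono fun x hx => ?_
  rw [Set.mem_ofPred_eq, ← c2 _ x hx, dist_comm]
  exact (dist_coe_le_dist x).trans hk.le

end Pool.Agent.Results.MP_2d7e0f_pr.Attained
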